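import Mathlib
import Pool.Agent.R482.EveryC

/-!
# A third of the iterated equations, for every constant and at every scale

Iterating `q ↦ (b q + c) / a` leads from `a p - b q = c` to the equations
`a^j p - b^j q = c (a^(j-1) + a^(j-2) b + ... + b^(j-1))`, and all of them satisfy the hypotheses of the
question when the first one does. For every `ε > 0` there is `J₀`, which depends on `ε` only, such that
for all `J ≥ J₀` and for every triple `(a, b, c)` of the question at least `(1/3 - ε) J` of the first `J`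
of these equations have infinitely many prime solutions. This holds at every scale, uniformly in `c`:
for all `a, b` there is `C` such that for all large `X` and all `c` with `C |c| ≤ X` at least
`(1/3 - ε) J` of the first `J` equations have at least `X ^ (1 - η)` solutions with `q ∈ [X / C, X]`.

The coloured Maynard-Tao theorem with a constant below `4` (`Pool.Agent.TH899.UG.NW.exactW`), the lemma
on quadruples `Pool.Agent.TH899.UG.TD.quad` and the lemmas on the iterated equations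
(`Pool.Agent.W25.IT.Rat`) are from the starting files.
-/

set_option autoImplicit false

namespace Pool.Agent.Results.MP_bf63dc_nt.EveryConstantEveryScale

open Finset Filter

/-- the hypotheses of the question -/
def Adm (a b : ℕ) (c : ℤ) : Prop :=
  1 ≤ a ∧ 1 ≤ b ∧ c ≠ 0 ∧ IsCoprime (a : ℤ) b ∧ IsCoprime (a : ℤ) c ∧ IsCoprime (b : ℤ) c ∧
    ¬ (Odd a ∧ Odd b ∧ Odd c)

/-- the hypotheses and the conclusion of the question; moreover, for every `η > 0` and arbitrarily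
large `x` there are at least `x ^ (1 - η)` primes `q ≤ x` such that `a p - b q = c` with `p` prime -/
def Good (a b : ℕ) (c : ℤ) : Prop :=
  Adm a b c ∧ {pq : ℕ × ℕ | pq.1.Prime ∧ pq.2.Prime ∧ (a : ℤ) * pq.1 - b * pq.2 = c}.Infinite ∧
    ∀ η : ℝ, 0 < η → ∃ᶠ x : ℝ in atTop, x ^ (1 - η) ≤
      ({q : ℕ | (q.Prime ∧ ∃ p : ℕ, p.Prime ∧ (a : ℤ) * p - b * q = c) ∧ (q : ℝ) ≤ x}.ncard : ℝ)

/-- the number of the primes `q`, `y ≤ q ≤ x`, such that `a p - b q = c` with `p` prime -/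
noncomputable def count (a b : ℕ) (c : ℤ) (y x : ℝ) : ℕ :=
  {q : ℕ | (q.Prime ∧ ∃ p : ℕ, p.Prime ∧ (a : ℤ) * p - b * q = c) ∧ y ≤ q ∧ (q : ℝ) ≤ x}.ncard

/-- the right-hand side of the `j`-th iterated equation -/
def rhs (a b : ℕ) (c : ℤ) (j : ℕ) : ℤ := c * ∑ i ∈ range j, (a : ℤ) ^ i * (b : ℤ) ^ (j - 1 - i)

theorem par (a b : ℕ) (c : ℤ) : (Odd a ∧ Odd b ∧ Odd c) ↔ (Odd (a : ℤ) ∧ Odd (b : ℤ) ∧ Odd c) := by
  rw [Int.odd_coe_nat, Int.odd_coe_nat]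

theorem adm_iter {a b : ℕ} {c : ℤ} (h : Adm a b c) {j : ℕ} (hj : 1 ≤ j) :
    Adm (a ^ j) (b ^ j) (rhs a b c j) := by
  obtain ⟨ha, hb, hc, hab, hac, hbc, hpar⟩ := h
  have ha' : (1 : ℤ) ≤ a := by exact_mod_cast ha
  have hb' : (1 : ℤ) ≤ b := by exact_mod_cast hb
  obtain ⟨h1, h2⟩ := Pool.Agent.W25.IT.Rat.cj_coprime hab hac hbc hj
  refine ⟨Nat.one_le_pow _ _ ha, Nat.one_le_pow _ _ hb,
    Pool.Agent.W25.IT.Rat.cj_pos a b c ha' hb' hc hj, ?_, ?_, ?_, ?_⟩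
  · push_cast
    exact hab.pow
  · push_cast
    exact h1
  · push_cast
    exact h2
  · rw [par, Nat.cast_pow, Nat.cast_pow]
    rw [par] at hpar
    exact Pool.Agent.W25.IT.Rat.cj_parity hpar hj

theorem count_eq (a b : ℕ) (c : ℤ) (j : ℕ) (y x : ℝ) :
    count (a ^ j) (b ^ j) (rhs a b c j) y x = Pool.Agent.Y863.AR.cntR a b c j y x := by
  unfold count Pool.Agent.Y863.AR.cntR Pool.Agent.Y863.AR.PR
  push_cast
  rfl

/-- many solutions at arbitrarily large scales -/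
theorem good_of_frequently {a b : ℕ} {c : ℤ} (h : Adm a b c) (y : ℕ → ℝ)
    (hf : ∀ η : ℝ, 0 < η → ∃ᶠ X : ℕ in atTop, (X : ℝ) ^ (1 - η) ≤ (count a b c (y X) X : ℝ)) :
    Good a b c := by
  have key : ∀ η : ℝ, 0 < η → ∃ᶠ x : ℝ in atTop, x ^ (1 - η) ≤
      ({q : ℕ | (q.Prime ∧ ∃ p : ℕ, p.Prime ∧ (a : ℤ) * p - b * q = c) ∧ (q : ℝ) ≤ x}.ncard : ℝ) := by
    intro η hη
    refine tendsto_natCast_atTop_atTop.frequently ((hf η hη).mono fun X hX => hX.trans ?_)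
    rw [Nat.cast_le]
    refine Set.ncard_le_ncard (fun q hq => ⟨hq.1, hq.2.2⟩) ?_
    exact (Set.finite_le_nat ⌊(X : ℝ)⌋₊).subset fun q hq => Nat.le_floor hq.2
  refine ⟨h, ?_, key⟩
  have hB : Pool.Agent.H732R3.BigQ.Big
      {q : ℕ | q.Prime ∧ ∃ p : ℕ, p.Prime ∧ (a : ℤ) * p - b * q = c} := key
  apply Set.Infinite.of_image Prod.snd
  refine hB.infinite.mono ?_
  rintro q ⟨hq, p, hp, hpq⟩
  exact ⟨(p, q), ⟨hp, hq, hpq⟩, rfl⟩

theorem result (ε : ℝ) (hε : 0 < ε) : ∃ J₀ : ℕ, ∀ J : ℕ, J₀ ≤ J →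
    (∀ (a b : ℕ) (c : ℤ), Adm a b c → (1 / 3 - ε) * (J : ℝ) ≤
      ({j : ℕ | 1 ≤ j ∧ j ≤ J ∧ Good (a ^ j) (b ^ j) (rhs a b c j)}.ncard : ℝ)) ∧
    ∀ a b : ℕ, 1 ≤ a → 1 ≤ b → IsCoprime (a : ℤ) b → ∃ C : ℕ, 1 ≤ C ∧ ∀ η : ℝ, 0 < η →
      ∀ᶠ X : ℕ in atTop, ∀ c : ℤ, Adm a b c → (C : ℤ) * |c| ≤ X →
      (1 / 3 - ε) * (J : ℝ) ≤ ({j : ℕ | 1 ≤ j ∧ j ≤ J ∧ Adm (a ^ j) (b ^ j) (rhs a b c j) ∧
        (X : ℝ) ^ (1 - η) ≤ (count (a ^ j) (b ^ j) (rhs a b c j) (X / C) X : ℝ)}.ncard : ℝ) := by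
  classical
  obtain ⟨J₀, hJ₀⟩ := Pool.Agent.R482.everyC ε hε
  refine ⟨J₀, fun J hJ => ?_⟩
  have hmain : ∀ a b : ℕ, 1 ≤ a → 1 ≤ b → IsCoprime (a : ℤ) b → ∃ C : ℕ, 1 ≤ C ∧ ∀ η : ℝ, 0 < η →
      ∀ᶠ X : ℕ in atTop, ∀ c : ℤ, Adm a b c → (C : ℤ) * |c| ≤ X →
      (1 / 3 - ε) * (J : ℝ) ≤ ({j : ℕ | 1 ≤ j ∧ j ≤ J ∧ Adm (a ^ j) (b ^ j) (rhs a b c j) ∧
        (X : ℝ) ^ (1 - η) ≤ (count (a ^ j) (b ^ j) (rhs a b c j) (X / C) X : ℝ)}.ncard : ℝ) := by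
    intro a b ha hb hab
    obtain ⟨C, hC, h⟩ := hJ₀ J hJ a b ha hb hab
    refine ⟨C, hC, fun η hη => ?_⟩
    filter_upwards [h (min η 1) (by positivity) (min_le_right _ _), eventually_ge_atTop 1]
      with X hX hX1 c hc hCX
    obtain ⟨ha', hb', hc0, hab', hac, hbc, hpar⟩ := id hc
    rw [par] at hpar
    refine (hX c hc0 ⟨hac, hbc, hpar⟩ hCX).trans ?_
    rw [Nat.cast_le, ← Set.ncard_coe_finset]
    refine Set.ncard_le_ncard ?_ ((Set.finite_Icc 1 J).subset fun j hj => ⟨hj.1, hj.2.1⟩)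
    intro j hj
    obtain ⟨hj1, hj2⟩ := mem_filter.1 (mem_coe.1 hj)
    obtain ⟨hj3, hj4⟩ := mem_Icc.1 hj1
    refine ⟨hj3, hj4, adm_iter hc hj3, ?_⟩
    rw [count_eq]
    refine le_trans (Real.rpow_le_rpow_of_exponent_le (by exact_mod_cast hX1) ?_) hj2
    have := min_le_left η 1
    linarith
  refine ⟨fun a b c hc => ?_, hmain⟩
  -- pigeonhole over the scales
  obtain ⟨C, hC, h⟩ := hmain a b hc.1 hc.2.1 hc.2.2.2.1
  obtain ⟨V, hV⟩ : ∃ V, V = (Icc 1 J).filter (fun j => ¬ Good (a ^ j) (b ^ j) (rhs a b c j)) :=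
    ⟨_, rfl⟩
  have hch : ∀ j : ℕ, ∃ η : ℝ, 0 < η ∧ (j ∈ V → ∀ᶠ X : ℕ in atTop,
      ¬ (X : ℝ) ^ (1 - η) ≤ (count (a ^ j) (b ^ j) (rhs a b c j) (X / C) X : ℝ)) := by
    intro j
    by_cases hj : j ∈ V
    · by_contra hcon
      push Not at hcon
      have hj' := hj
      rw [hV, mem_filter, mem_Icc] at hj'
      apply hj'.2
      refine good_of_frequently (adm_iter hc hj'.1.1) (fun X => (X : ℝ) / C) fun η hη => ?_
      exact (hcon η hη).2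
    · exact ⟨1, one_pos, fun h => absurd h hj⟩
  choose f hf0 hf using hch
  obtain ⟨η, hη0, hηf⟩ : ∃ η : ℝ, 0 < η ∧ ∀ j ∈ V, η ≤ f j := by
    rcases V.eq_empty_or_nonempty with h | h
    · exact ⟨1, one_pos, fun z hz => by rw [h] at hz; exact absurd hz (by simp)⟩
    · obtain ⟨z₀, hz₀, hmin⟩ := exists_min_image V f h
      exact ⟨f z₀, hf0 _, hmin⟩
  have hev : ∀ᶠ X : ℕ in atTop, ∀ j ∈ V,
      ¬ (X : ℝ) ^ (1 - η) ≤ (count (a ^ j) (b ^ j) (rhs a b c j) (X / C) X : ℝ) := by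
    rw [eventually_all_finset]
    intro j hj
    filter_upwards [hf j hj, eventually_ge_atTop 1] with X hX hX1 hg
    apply hX
    refine le_trans ?_ hg
    exact Real.rpow_le_rpow_of_exponent_le (by exact_mod_cast hX1) (by linarith [hηf j hj])
  obtain ⟨X, h1, h2, h3⟩ := ((h η hη0).and (hev.and (eventually_ge_atTop (C * c.natAbs)))).exists
  refine (h1 c hc ?_).trans ?_
  · rw [Int.abs_eq_natAbs]
    exact_mod_cast h3
  rw [Nat.cast_le]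
  refine Set.ncard_le_ncard ?_ ((Set.finite_Icc 1 J).subset fun j hj => ⟨hj.1, hj.2.1⟩)
  rintro j ⟨hj1, hj2, -, hj3⟩
  refine ⟨hj1, hj2, ?_⟩
  by_contra hcon
  exact h2 j (by rw [hV]; exact mem_filter.2 ⟨mem_Icc.2 ⟨hj1, hj2⟩, hcon⟩) hj3

end Pool.Agent.Results.MP_bf63dc_nt.EveryConstantEveryScale
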