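import Pool.Agent.R482.RatFive

/-!
# Five ninths of the iterates of `x ↦ (b x + c) / a`

For every triple `(a, b, c)` of the question, among the iterated equations
`a^j p - b^j q = c (a^(j-1) + a^(j-2) b + ... + b^(j-1))` with `j` a multiple of a suitable number,
the proportion `5 / 9 - ε` has infinitely many solutions in primes, in every long window.

Used from the starting files: the coloured Maynard-Tao theorem in which more than `5 n / 18` of `n` classes of linear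
forms are hit simultaneously, for families all of whose prime-divisibility conditions are void at the small
primes (`Pool.Agent.Y827.GS.quarterGD`), its combinatorial consequence `Pool.Agent.Y827.GS.mthG`, and the lemmas on the
iterated equations (`Pool.Agent.W25.IT.Rat`).
-/

set_option autoImplicit false

open Finset Filter

namespace Pool.Agent.Results.MP_bf63dc_nt.FiveNinthsOfIterates

/-- the hypotheses of the question -/
def Adm (a b : ℕ) (c : ℤ) : Prop :=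
  1 ≤ a ∧ 1 ≤ b ∧ c ≠ 0 ∧ IsCoprime (a : ℤ) b ∧ IsCoprime (a : ℤ) c ∧ IsCoprime (b : ℤ) c ∧
    ¬ (Odd a ∧ Odd b ∧ Odd c)

/-- the hypotheses and the conclusion of the question; moreover, for every `η > 0` and arbitrarily
large `x` there are at least `x ^ (1 - η)` primes `q ≤ x` such that `a p - b q = c` with `p` prime -/
def Good (a b : ℕ) (c : ℤ) : Prop :=
  Adm a b c ∧ {pq : ℕ × ℕ | pq.1.Prime ∧ pq.2.Prime ∧ (a : ℤ) * pq.1 - b * pq.2 = c}.Infinite ∧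
    ∀ η : ℝ, 0 < η → ∃ᶠ x : ℝ in atTop, x ^ (1 - η) ≤
      ({q : ℕ | (q.Prime ∧ ∃ p : ℕ, p.Prime ∧ (a : ℤ) * p - b * q = c) ∧ (q : ℝ) ≤ x}.ncard : ℝ)

/-- the right-hand side of the `j`-th iterated equation -/
def rhs (a b : ℕ) (c : ℤ) (j : ℕ) : ℤ := c * ∑ i ∈ range j, (a : ℤ) ^ i * (b : ℤ) ^ (j - 1 - i)

theorem adm_iter {a b : ℕ} {c : ℤ} (h : Adm a b c) {j : ℕ} (hj : 1 ≤ j) :
    Adm (a ^ j) (b ^ j) (rhs a b c j) := by
  obtain ⟨ha, hb, hc, hab, hac, hbc, hpar⟩ := h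
  have ha' : (1 : ℤ) ≤ a := by exact_mod_cast ha
  have hb' : (1 : ℤ) ≤ b := by exact_mod_cast hb
  obtain ⟨h1, h2⟩ := Pool.Agent.W25.IT.Rat.cj_coprime hab hac hbc hj
  refine ⟨Nat.one_le_pow _ _ ha, Nat.one_le_pow _ _ hb,
    Pool.Agent.W25.IT.Rat.cj_pos a b c ha' hb' hc hj, ?_, ?_, ?_, ?_⟩
  · push_cast
    exact hab.pow
  · push_cast
    exact h1
  · push_cast
    exact h2
  · rintro ⟨h3, h4, h5⟩
    refine Pool.Agent.W25.IT.Rat.cj_parity (a := (a : ℤ)) (b := (b : ℤ)) (c := c) ?_ hj ⟨?_, ?_, h5⟩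
    · rintro ⟨h6, h7, h8⟩
      exact hpar ⟨by exact_mod_cast h6, by exact_mod_cast h7, h8⟩
    · exact_mod_cast h3
    · exact_mod_cast h4

theorem good_iter {a b : ℕ} {c : ℤ} (h : Adm a b c) {j : ℕ} (hj : 1 ≤ j)
    (hg : Pool.Agent.W25.IT.Rat.GoodEq a b c j) : Good (a ^ j) (b ^ j) (rhs a b c j) := by
  refine ⟨adm_iter h hj, ?_, ?_⟩
  · push_cast
    exact hg.1
  · push_cast
    exact hg.2

theorem result (a b : ℕ) (c : ℤ) (hadm : Adm a b c) (ε : ℝ) (hε : 0 < ε) :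
    ∃ M : ℕ, 0 < M ∧ ∀ N : ℕ, 0 < N → M ∣ N → ∃ L : ℕ, ∀ T : ℕ, L ≤ T → ∀ u : ℕ,
      (5 / 9 - ε) * (T : ℝ) ≤ ({k : ℕ | u < k ∧ k ≤ u + T ∧
        Good (a ^ (N * k)) (b ^ (N * k)) (rhs a b c (N * k))}.ncard : ℝ) := by
  have hadm' := hadm
  obtain ⟨ha, hb, hc, hab, hac, hbc, hpar⟩ := hadm
  have ha' : (1 : ℤ) ≤ a := by exact_mod_cast ha
  have hb' : (1 : ℤ) ≤ b := by exact_mod_cast hb
  have hpar' : ¬ (Odd (a : ℤ) ∧ Odd (b : ℤ) ∧ Odd c) := by
    rintro ⟨h6, h7, h8⟩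
    exact hpar ⟨by exact_mod_cast h6, by exact_mod_cast h7, h8⟩
  obtain ⟨M, hM, h⟩ := Pool.Agent.R482.fiveNinths a b c ha' hb' hc hab hac hbc hpar' ε hε
  refine ⟨M, hM, fun N hN hMN => ?_⟩
  obtain ⟨L, hL⟩ := h N hN hMN
  refine ⟨L, fun T hT u => (hL T hT u).trans ?_⟩
  rw [Nat.cast_le]
  refine Set.ncard_le_ncard ?_ ((Set.finite_Ioc u (u + T)).subset ?_)
  · intro k hk
    refine ⟨hk.1, hk.2.1, good_iter hadm' ?_ hk.2.2⟩
    have hk0 : 0 < k := by have := hk.1; omega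
    exact Nat.mul_pos hN hk0
  · intro k hk
    exact ⟨hk.1, hk.2.1⟩

end Pool.Agent.Results.MP_bf63dc_nt.FiveNinthsOfIterates
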