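import Mathlib
import Pool.Agent.R482.Box3

/-!
# A positive proportion of the equations `a p - b q = c` in every box

There are `δ > 0` and `X₀` such that for all `X, Y ≥ X₀` at least `δ X ^ 2 Y` triples `(a, b, c)` with
`1 ≤ a, b ≤ X` and `1 ≤ c ≤ Y` satisfy the hypotheses of the question and are such that `a p - b q = c`
has infinitely many prime solutions. This holds at every scale, for constants as large as the primes:
for every `X ≥ X₀` and `η > 0`, for all large `Z` and all `Y` with `X₀ ≤ Y ≤ Z / (1000 X ^ 2)` at least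
`δ X ^ 2 Y` triples of the box satisfy the hypotheses and have at least `Z ^ (1 - η)` solutions with
`q ∈ [Z / (1000 X), Z]`.

The coloured Maynard-Tao theorem with a constant below `4` (`Pool.Agent.TH899.UG.NW.exactW`) and the
forms `(A + F C) n + (B + F E)` with `A E - B C = c` (`Pool.Agent.W76`) are from the starting files.
-/

set_option autoImplicit false

namespace Pool.Agent.Results.MP_bf63dc_nt.PositiveProportionOfTriples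

open Finset Filter

/-- the hypotheses of the question -/
def Adm (a b : ℕ) (c : ℤ) : Prop :=
  1 ≤ a ∧ 1 ≤ b ∧ c ≠ 0 ∧ IsCoprime (a : ℤ) b ∧ IsCoprime (a : ℤ) c ∧ IsCoprime (b : ℤ) c ∧
    ¬ (Odd a ∧ Odd b ∧ Odd c)

/-- the hypotheses and the conclusion of the question; moreover, for every `η > 0` and arbitrarily
large `x` there are at least `x ^ (1 - η)` primes `q ≤ x` such that `a p - b q = c` with `p` prime -/
def Good (a b : ℕ) (c : ℤ) : Prop :=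
  Adm a b c ∧ {pq : ℕ × ℕ | pq.1.Prime ∧ pq.2.Prime ∧ (a : ℤ) * pq.1 - b * pq.2 = c}.Infinite ∧
    ∀ η : ℝ, 0 < η → ∃ᶠ x : ℝ in atTop, x ^ (1 - η) ≤
      ({q : ℕ | (q.Prime ∧ ∃ p : ℕ, p.Prime ∧ (a : ℤ) * p - b * q = c) ∧ (q : ℝ) ≤ x}.ncard : ℝ)

/-- the number of the primes `q`, `y ≤ q ≤ x`, such that `a p - b q = c` with `p` prime -/
noncomputable def count (a b : ℕ) (c : ℤ) (y x : ℝ) : ℕ :=
  {q : ℕ | (q.Prime ∧ ∃ p : ℕ, p.Prime ∧ (a : ℤ) * p - b * q = c) ∧ y ≤ q ∧ (q : ℝ) ≤ x}.ncard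

theorem box_finite (X Y : ℕ) (P : ℕ × ℕ × ℕ → Prop) :
    {z : ℕ × ℕ × ℕ | z.1 ≤ X ∧ z.2.1 ≤ X ∧ z.2.2 ≤ Y ∧ P z}.Finite := by
  refine ((Set.finite_Iic X).prod ((Set.finite_Iic X).prod (Set.finite_Iic Y))).subset ?_
  rintro ⟨a, b, c⟩ ⟨h1, h2, h3, -⟩
  exact ⟨h1, h2, h3⟩

theorem adm_of {X Z : ℕ} {η : ℝ} {a b c : ℕ} (ha : 1 ≤ a) (hb : 1 ≤ b) (hc : 1 ≤ c)
    (h : Pool.Agent.R482.GoodAt X Z η a b (c : ℤ)) : Adm a b c := by
  obtain ⟨h1, h2, h3, h4, -⟩ := h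
  exact ⟨ha, hb, by exact_mod_cast (by omega : c ≠ 0), Nat.isCoprime_iff_coprime.2 h1, h2, h3,
    fun h => h4 ⟨h.1, h.2.1⟩⟩

theorem result : ∃ (δ : ℝ) (X₀ : ℕ), 0 < δ ∧
    (∀ X Y : ℕ, X₀ ≤ X → X₀ ≤ Y → δ * (X : ℝ) ^ 2 * Y ≤
      ({z : ℕ × ℕ × ℕ | z.1 ≤ X ∧ z.2.1 ≤ X ∧ z.2.2 ≤ Y ∧
        Good z.1 z.2.1 (z.2.2 : ℤ)}.ncard : ℝ)) ∧
    ∀ X : ℕ, X₀ ≤ X → ∀ η : ℝ, 0 < η → ∀ᶠ Z : ℕ in atTop, ∀ Y : ℕ, X₀ ≤ Y → 1000 * X ^ 2 * Y ≤ Z →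
      δ * (X : ℝ) ^ 2 * Y ≤ ({z : ℕ × ℕ × ℕ | z.1 ≤ X ∧ z.2.1 ≤ X ∧ z.2.2 ≤ Y ∧
        (Adm z.1 z.2.1 (z.2.2 : ℤ) ∧
        (Z : ℝ) ^ (1 - η) ≤ (count z.1 z.2.1 (z.2.2 : ℤ) (Z / (1000 * X)) Z : ℝ))}.ncard : ℝ) := by
  classical
  obtain ⟨δ, X₀, hδ, hX₀, H1, H2⟩ := Pool.Agent.R482.boxInf
  have hinj : Function.Injective (fun z : (ℕ × ℕ) × ℕ => (z.1.1, z.1.2, z.2)) := by
    rintro ⟨⟨a, b⟩, c⟩ ⟨⟨a', b'⟩, c'⟩ h
    simp only [Prod.mk.injEq] at h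
    obtain ⟨h1, h2, h3⟩ := h
    rw [h1, h2, h3]
  refine ⟨δ, X₀, hδ, fun X Y hX hY => ?_, fun X hX η hη => ?_⟩
  · refine (H2 X hX Y hY).trans ?_
    rw [Nat.cast_le, ← card_image_of_injective _ hinj, ← Set.ncard_coe_finset]
    refine Set.ncard_le_ncard ?_ (box_finite X Y _)
    intro z hz
    rw [mem_coe, mem_image] at hz
    obtain ⟨⟨⟨a, b⟩, c⟩, h1, rfl⟩ := hz
    obtain ⟨h2, h3⟩ := mem_filter.1 h1
    obtain ⟨h4, h5⟩ := mem_product.1 h2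
    obtain ⟨h6, h7⟩ := mem_product.1 h4
    have h5 := mem_Icc.1 h5
    have h6 := mem_Icc.1 h6
    have h7 := mem_Icc.1 h7
    simp only at h3 h5 h6 h7
    obtain ⟨Z, hZ⟩ := (h3 1 one_pos).exists
    have hadm : Adm a b (c : ℤ) := adm_of h6.1 h7.1 h5.1 hZ
    refine ⟨h6.2, h7.2, h5.2, hadm, ?_⟩
    have key : ∀ η : ℝ, 0 < η → ∃ᶠ x : ℝ in atTop, x ^ (1 - η) ≤
      ({q : ℕ | (q.Prime ∧ ∃ p : ℕ, p.Prime ∧ (a : ℤ) * p - b * q = (c : ℤ)) ∧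
        (q : ℝ) ≤ x}.ncard : ℝ) := by
      intro η hη
      refine tendsto_natCast_atTop_atTop.frequently ((h3 η hη).mono fun Z hZ => ?_)
      obtain ⟨-, -, -, -, h8⟩ := hZ
      refine h8.trans ?_
      rw [Nat.cast_le]
      refine Set.ncard_le_ncard (fun q hq => ⟨hq.1, hq.2.2⟩) ?_
      exact (Set.finite_le_nat ⌊(Z : ℝ)⌋₊).subset fun q hq => Nat.le_floor hq.2
    refine ⟨?_, key⟩
    have hB : Pool.Agent.H732R3.BigQ.Big
        {q : ℕ | q.Prime ∧ ∃ p : ℕ, p.Prime ∧ (a : ℤ) * p - b * q = (c : ℤ)} := key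
    apply Set.Infinite.of_image Prod.snd
    refine hB.infinite.mono ?_
    rintro q ⟨hq, p, hp, hpq⟩
    exact ⟨(p, q), ⟨hp, hq, hpq⟩, rfl⟩
  · filter_upwards [H1 X hX (min η 1) (by positivity) (min_le_right _ _), eventually_ge_atTop 1]
      with Z hZ hZ1 Y hY hYZ
    refine (hZ Y hY hYZ).trans ?_
    rw [Nat.cast_le, ← card_image_of_injective _ hinj, ← Set.ncard_coe_finset]
    refine Set.ncard_le_ncard ?_ (box_finite X Y _)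
    intro z hz
    rw [mem_coe, mem_image] at hz
    obtain ⟨⟨⟨a, b⟩, c⟩, h1, rfl⟩ := hz
    obtain ⟨h2, h3⟩ := mem_filter.1 h1
    obtain ⟨h4, h5⟩ := mem_product.1 h2
    obtain ⟨h6, h7⟩ := mem_product.1 h4
    have h5 := mem_Icc.1 h5
    have h6 := mem_Icc.1 h6
    have h7 := mem_Icc.1 h7
    simp only at h3 h5 h6 h7
    refine ⟨h6.2, h7.2, h5.2, adm_of h6.1 h7.1 h5.1 h3, ?_⟩
    obtain ⟨-, -, -, -, h8⟩ := h3
    have e : (Z : ℝ) / (1000 * X) = (Z : ℝ) / ((1000 * X : ℕ) : ℝ) := by push_cast; rfl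
    show (Z : ℝ) ^ (1 - η) ≤ (count a b (c : ℤ) (Z / (1000 * X)) Z : ℝ)
    rw [e]
    refine le_trans (Real.rpow_le_rpow_of_exponent_le (by exact_mod_cast hZ1) ?_) h8
    have := min_le_left η 1
    linarith

end Pool.Agent.Results.MP_bf63dc_nt.PositiveProportionOfTriples
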