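import Pool.Agent.R482.RatFive

/-!
# A third of the iterates of `x ↦ (b x + c) / a` in every long window

For every triple `(a, b, c)` of the question, among any `T` consecutive iterated equations
`a^j p - b^j q = c (a^(j-1) + a^(j-2) b + ... + b^(j-1))`, `u < j ≤ u + T`, at least `(1 / 3 - ε) T` have infinitely many
solutions in primes, if `T` is large in terms of `ε` and the triple. There is no condition on the exponents `j`.

Used from the starting files: the coloured Maynard-Tao theorem above one quarter (`Pool.Agent.Y827.GS.quarterG`), its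
combinatorial consequence `Pool.Agent.W432.UB.main`, and the lemmas on the iterated equations
(`Pool.Agent.W25.IT.Rat`).
-/

set_option autoImplicit false

open Finset Filter

namespace Pool.Agent.Results.MP_bf63dc_nt.ThirdOfIteratesInWindows

/-- the hypotheses of the question -/
def Adm (a b : ℕ) (c : ℤ) : Prop :=
  1 ≤ a ∧ 1 ≤ b ∧ c ≠ 0 ∧ IsCoprime (a : ℤ) b ∧ IsCoprime (a : ℤ) c ∧ IsCoprime (b : ℤ) c ∧
    ¬ (Odd a ∧ Odd b ∧ Odd c)

/-- the hypotheses and the conclusion of the question; moreover, for every `η > 0` and arbitrarily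
large `x` there are at least `x ^ (1 - η)` primes `q ≤ x` such that `a p - b q = c` with `p` prime -/
def Good (a b : ℕ) (c : ℤ) : Prop :=
  Adm a b c ∧ {pq : ℕ × ℕ | pq.1.Prime ∧ pq.2.Prime ∧ (a : ℤ) * pq.1 - b * pq.2 = c}.Infinite ∧
    ∀ η : ℝ, 0 < η → ∃ᶠ x : ℝ in atTop, x ^ (1 - η) ≤
      ({q : ℕ | (q.Prime ∧ ∃ p : ℕ, p.Prime ∧ (a : ℤ) * p - b * q = c) ∧ (q : ℝ) ≤ x}.ncard : ℝ)

/-- the right-hand side of the `j`-th iterated equation -/
def rhs (a b : ℕ) (c : ℤ) (j : ℕ) : ℤ := c * ∑ i ∈ range j, (a : ℤ) ^ i * (b : ℤ) ^ (j - 1 - i)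

theorem adm_iter {a b : ℕ} {c : ℤ} (h : Adm a b c) {j : ℕ} (hj : 1 ≤ j) :
    Adm (a ^ j) (b ^ j) (rhs a b c j) := by
  obtain ⟨ha, hb, hc, hab, hac, hbc, hpar⟩ := h
  have ha' : (1 : ℤ) ≤ a := by exact_mod_cast ha
  have hb' : (1 : ℤ) ≤ b := by exact_mod_cast hb
  obtain ⟨h1, h2⟩ := Pool.Agent.W25.IT.Rat.cj_coprime hab hac hbc hj
  refine ⟨Nat.one_le_pow _ _ ha, Nat.one_le_pow _ _ hb,
    Pool.Agent.W25.IT.Rat.cj_pos a b c ha' hb' hc hj, ?_, ?_, ?_, ?_⟩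
  · push_cast
    exact hab.pow
  · push_cast
    exact h1
  · push_cast
    exact h2
  · rintro ⟨h3, h4, h5⟩
    refine Pool.Agent.W25.IT.Rat.cj_parity (a := (a : ℤ)) (b := (b : ℤ)) (c := c) ?_ hj ⟨?_, ?_, h5⟩
    · rintro ⟨h6, h7, h8⟩
      exact hpar ⟨by exact_mod_cast h6, by exact_mod_cast h7, h8⟩
    · exact_mod_cast h3
    · exact_mod_cast h4

theorem good_iter {a b : ℕ} {c : ℤ} (h : Adm a b c) {j : ℕ} (hj : 1 ≤ j)
    (hg : Pool.Agent.W25.IT.Rat.GoodEq a b c j) : Good (a ^ j) (b ^ j) (rhs a b c j) := by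
  refine ⟨adm_iter h hj, ?_, ?_⟩
  · push_cast
    exact hg.1
  · push_cast
    exact hg.2

theorem result (a b : ℕ) (c : ℤ) (hadm : Adm a b c) (ε : ℝ) (hε : 0 < ε) :
    ∃ L : ℕ, ∀ T : ℕ, L ≤ T → ∀ u : ℕ,
      (1 / 3 - ε) * (T : ℝ) ≤ ({j : ℕ | u < j ∧ j ≤ u + T ∧ Good (a ^ j) (b ^ j) (rhs a b c j)}.ncard : ℝ) := by
  classical
  have hadm' := hadm
  obtain ⟨ha, hb, hc, hab, hac, hbc, hpar⟩ := hadm
  have ha' : (1 : ℤ) ≤ a := by exact_mod_cast ha
  have hb' : (1 : ℤ) ≤ b := by exact_mod_cast hb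
  have hpar' : ¬ (Odd (a : ℤ) ∧ Odd (b : ℤ) ∧ Odd c) := by
    rintro ⟨h6, h7, h8⟩
    exact hpar ⟨by exact_mod_cast h6, by exact_mod_cast h7, h8⟩
  obtain ⟨L, hL⟩ := Pool.Agent.R482.windowThird a b c ha' hb' hc hab hac hbc hpar' ε hε
  refine ⟨L, fun T hT u => (hL T hT u).trans ?_⟩
  rw [Nat.cast_le]
  unfold Pool.Agent.W59.GB.win
  rw [← Set.ncard_coe_finset]
  refine Set.ncard_le_ncard ?_ ((Set.finite_Ioc u (u + T)).subset ?_)
  · intro k hk
    rw [mem_coe, mem_filter, mem_Ioc] at hk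
    exact ⟨hk.1.1, hk.1.2, good_iter hadm' (by omega) hk.2⟩
  · intro k hk
    exact ⟨hk.1, hk.2.1⟩

end Pool.Agent.Results.MP_bf63dc_nt.ThirdOfIteratesInWindows
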